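import Mathlib

open MeasureTheory Filter Topology InnerProductSpace Laplacian
open scoped ContDiff

namespace Pool.Agent.Results.MP_885c89_an.Unbounded

abbrev E := EuclideanSpace ℝ (Fin 6)

/-- minus the Laplacian -/
noncomputable def nL (f : E → ℝ) : E → ℝ := fun x => -(Δ f x)

noncomputable def D (i : Fin 6) (f : E → ℝ) (x : E) : ℝ := fderiv ℝ f x (EuclideanSpace.single i 1)

lemma lap_eq {f : E → ℝ} {x : E} (hf : ContDiffAt ℝ 2 f x) : Δ f x = ∑ i, D i (D i f) x := by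
  rw [laplacian_eq_iteratedFDeriv_orthonormalBasis f (EuclideanSpace.basisFun (Fin 6) ℝ)]
  refine Finset.sum_congr rfl fun i _ => ?_
  have h : DifferentiableAt ℝ (fderiv ℝ f) x :=
    (hf.fderiv_right (m := 1) le_rfl).differentiableAt one_ne_zero
  unfold D
  rw [iteratedFDeriv_two_apply, fderiv_clm_apply h (differentiableAt_const _)]
  simp

lemma D_smooth {f : E → ℝ} (hf : ContDiff ℝ ∞ f) (i : Fin 6) : ContDiff ℝ ∞ (D i f) :=
  (hf.fderiv_right (m := ∞) le_rfl).clm_apply contDiff_const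

lemma nL_eq {f : E → ℝ} (hf : ContDiff ℝ ∞ f) : nL f = fun x => -∑ i, D i (D i f) x := by
  ext x; rw [nL, lap_eq (hf.contDiffAt.of_le (by norm_cast))]

lemma nL_smooth {f : E → ℝ} (hf : ContDiff ℝ ∞ f) : ContDiff ℝ ∞ (nL f) := by
  rw [nL_eq hf]
  exact (ContDiff.sum fun i _ => D_smooth (D_smooth hf i) i).neg

lemma D_cs {f : E → ℝ} (hf : HasCompactSupport f) (i : Fin 6) : HasCompactSupport (D i f) :=
  hf.fderiv_apply ℝ _

lemma nL_cs {f : E → ℝ} (hf : ContDiff ℝ ∞ f) (hc : HasCompactSupport f) :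
    HasCompactSupport (nL f) := by
  rw [nL_eq hf]
  refine HasCompactSupport.intro hc.isCompact fun x hx => ?_
  have : ∀ i, D i (D i f) x = 0 := fun i => by
    by_contra h
    exact hx (tsupport_fderiv_apply_subset ℝ _ (tsupport_fderiv_apply_subset ℝ _
      (subset_tsupport _ h)))
  simp [this]

lemma ibp {f g : E → ℝ} (hf : ContDiff ℝ ∞ f) (hg : ContDiff ℝ ∞ g) (hc : HasCompactSupport g)
    (i : Fin 6) : ∫ x, f x * D i g x = -∫ x, D i f x * g x :=
  integral_mul_fderiv_eq_neg_fderiv_mul_of_integrable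
    (((D_smooth hf i).continuous.mul hg.continuous).integrable_of_hasCompactSupport hc.mul_left)
    ((hf.continuous.mul (D_smooth hg i).continuous).integrable_of_hasCompactSupport
      (D_cs hc i).mul_left)
    ((hf.continuous.mul hg.continuous).integrable_of_hasCompactSupport hc.mul_left)
    (fun x _ => hf.differentiable (by simp) x) (fun x _ => hg.differentiable (by simp) x)

lemma green {f g : E → ℝ} (hf : ContDiff ℝ ∞ f) (hg : ContDiff ℝ ∞ g) (hc : HasCompactSupport g) :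
    ∫ x, f x * nL g x = ∫ x, nL f x * g x := by
  rw [nL_eq hf, nL_eq hg]
  simp only [mul_neg, neg_mul, integral_neg, Finset.mul_sum, Finset.sum_mul]
  rw [integral_finsetSum (f := fun i x => f x * D i (D i g) x) _ fun i _ => (hf.continuous.mul
      (D_smooth (D_smooth hg i) i).continuous).integrable_of_hasCompactSupport
      (D_cs (D_cs hc i) i).mul_left,
    integral_finsetSum (f := fun i x => D i (D i f) x * g x) _ fun i _ =>
      ((D_smooth (D_smooth hf i) i).continuous.mul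
      hg.continuous).integrable_of_hasCompactSupport hc.mul_left]
  congr 1
  refine Finset.sum_congr rfl fun i _ => ?_
  rw [ibp hf (D_smooth hg i) (D_cs hc i), ibp (D_smooth hf i) hg hc, neg_neg]

noncomputable def fam (c0 c1 c2 c3 c4 c5 c6 c7 : ℝ) (x : E) : ℝ :=
  c0 * Real.log (‖x‖ ^ 2) + c1 * (‖x‖ ^ 2)⁻¹ + c2 * ((‖x‖ ^ 2)⁻¹) ^ 2 + c3 + c4 * ‖x‖ ^ 2 +
    c5 * x 0 ^ 2 + c6 * (x 0 ^ 2 * ‖x‖ ^ 2) + c7 * x 0 ^ 4

lemma hA (j : Fin 6) (x : E) :
    HasFDerivAt (fun y : E => y j) (EuclideanSpace.proj (𝕜 := ℝ) j) x :=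
  (EuclideanSpace.proj (𝕜 := ℝ) j).hasFDerivAt

lemma lap_fam (c0 c1 c2 c3 c4 c5 c6 c7 : ℝ) {x : E} (hx : x ≠ 0) :
    nL (fam c0 c1 c2 c3 c4 c5 c6 c7) x =
      fam 0 (-8 * c0) (4 * c1) (-12 * c4 - 2 * c5) (-2 * c6) (-20 * c6 - 12 * c7) 0 0 x := by
  have ht : ∀ y : E, y ≠ 0 → ‖y‖ ^ 2 ≠ 0 := fun y hy => by simpa using hy
  have hT : ∀ y : E, HasFDerivAt (fun y : E => ‖y‖ ^ 2) (2 • innerSL ℝ y) y :=
    fun y => (hasStrictFDerivAt_norm_sq y).hasFDerivAt
  have hI : ∀ y : E, y ≠ 0 → HasFDerivAt (fun y : E => (‖y‖ ^ 2)⁻¹)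
      ((-((‖y‖ ^ 2) ^ 2)⁻¹) • (2 • innerSL ℝ y)) y :=
    fun y hy => (hasDerivAt_inv (ht y hy)).comp_hasFDerivAt y (hT y)
  have hc : ContDiffAt ℝ 2 (fam c0 c1 c2 c3 c4 c5 c6 c7) x := by
    have h1 : ContDiffAt ℝ 2 (fun y : E => ‖y‖ ^ 2) x := (contDiff_norm_sq ℝ).contDiffAt
    have h2 := h1.log (ht x hx)
    have h3 := h1.inv (ht x hx)
    have h4 : ContDiffAt ℝ 2 (fun y : E => y 0) x :=
      (EuclideanSpace.proj (𝕜 := ℝ) (0 : Fin 6)).contDiff.contDiffAt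
    unfold fam
    exact (((((((contDiffAt_const.mul h2).add (contDiffAt_const.mul h3)).add
      (contDiffAt_const.mul (h3.pow 2))).add contDiffAt_const).add (contDiffAt_const.mul h1)).add
      (contDiffAt_const.mul (h4.pow 2))).add (contDiffAt_const.mul ((h4.pow 2).mul h1))).add
      (contDiffAt_const.mul (h4.pow 4))
  have d1 : ∀ i, ∀ y : E, y ≠ 0 → D i (fam c0 c1 c2 c3 c4 c5 c6 c7) y =
      (c0 * (‖y‖ ^ 2)⁻¹ - c1 * ((‖y‖ ^ 2)⁻¹) ^ 2 - 2 * c2 * ((‖y‖ ^ 2)⁻¹) ^ 3 + c4 +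
        c6 * y 0 ^ 2) * (2 * y i) +
      (2 * c5 * y 0 + 2 * c6 * (y 0 * ‖y‖ ^ 2) + 4 * c7 * y 0 ^ 3) * (if 0 = i then 1 else 0) := by
    intro i y hy
    have := (((((((((hT y).log (ht y hy)).const_mul c0).add ((hI y hy).const_mul c1)).add
      (((hI y hy).pow 2).const_mul c2)).add_const c3).add ((hT y).const_mul c4)).add
      (((hA 0 y).pow 2).const_mul c5)).add ((((hA 0 y).pow 2).mul (hT y)).const_mul c6)).add
      (((hA 0 y).pow 4).const_mul c7)
    refine (congrArg (fun L : E →L[ℝ] ℝ => L (EuclideanSpace.single i 1)) this.fderiv).trans ?_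
    simp [EuclideanSpace.inner_single_right, Pi.single_apply]
    split_ifs <;> ring
  have d2 : ∀ i, D i (D i (fam c0 c1 c2 c3 c4 c5 c6 c7)) x =
      (-c0 * ((‖x‖ ^ 2)⁻¹) ^ 2 + 2 * c1 * ((‖x‖ ^ 2)⁻¹) ^ 3 + 6 * c2 * ((‖x‖ ^ 2)⁻¹) ^ 4) * 4 *
        x i ^ 2 + 2 * (c0 * (‖x‖ ^ 2)⁻¹ - c1 * ((‖x‖ ^ 2)⁻¹) ^ 2 - 2 * c2 * ((‖x‖ ^ 2)⁻¹) ^ 3 + c4 +
        c6 * x 0 ^ 2) + (if 0 = i then 8 * c6 * x 0 ^ 2 + 2 * c5 + 2 * c6 * ‖x‖ ^ 2 +
        12 * c7 * x 0 ^ 2 else 0) := by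
    intro i
    have e := Filter.eventually_of_mem (isOpen_ne.mem_nhds hx) (d1 i)
    have := (((((((hI x hx).const_mul c0).sub (((hI x hx).pow 2).const_mul c1)).sub
      (((hI x hx).pow 3).const_mul (2 * c2))).add_const c4).add
      (((hA 0 x).pow 2).const_mul c6)).mul ((hA i x).const_mul 2)).add
      (((((hA 0 x).const_mul (2 * c5)).add (((hA 0 x).mul (hT x)).const_mul (2 * c6))).add
      (((hA 0 x).pow 3).const_mul (4 * c7))).mul_const (if 0 = i then 1 else 0))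
    rw [D, Filter.EventuallyEq.fderiv_eq e]
    refine (congrArg (fun L : E →L[ℝ] ℝ => L (EuclideanSpace.single i 1)) this.fderiv).trans ?_
    by_cases h : 0 = i
    · subst h; simp [EuclideanSpace.inner_single_right]; ring
    · simp [EuclideanSpace.inner_single_right, Pi.single_apply, h]; ring
  rw [nL, lap_eq hc]
  simp only [d2, Finset.sum_add_distrib, ← Finset.mul_sum, Finset.sum_ite_eq, Finset.mem_univ,
    if_true, ← EuclideanSpace.real_norm_sq_eq, Finset.sum_const, Finset.card_univ,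
    Fintype.card_fin, fam]
  have := ht x hx
  generalize ‖x‖ ^ 2 = t at this
  simp only [nsmul_eq_mul]
  field_simp
  ring

noncomputable def χ : ContDiffBump (0 : E) := ⟨1 / 2, 1, by norm_num, by norm_num⟩

noncomputable def u (x : E) : ℝ :=
  1 / 6 * Real.log (‖x‖ ^ 2 + χ x) - (1 + x 0 ^ 2) * (‖x‖ ^ 2 - x 0 ^ 2)

lemma rho_pos (x : E) : 0 < ‖x‖ ^ 2 + χ x := by
  by_cases h : x = 0
  · rw [h, χ.one_of_mem_closedBall (Metric.mem_closedBall_self χ.rIn_pos.le)]; simp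
  · have := χ.nonneg (x := x)
    positivity

lemma u_smooth : ContDiff ℝ ∞ u := by
  have h4 : ContDiff ℝ ∞ (fun y : E => y 0) :=
    (EuclideanSpace.proj (𝕜 := ℝ) (0 : Fin 6)).contDiff
  exact (contDiff_const.mul (((contDiff_norm_sq ℝ).add χ.contDiff).log fun x => (rho_pos x).ne')).sub
    ((contDiff_const.add (h4.pow 2)).mul ((contDiff_norm_sq ℝ).sub (h4.pow 2)))

lemma u_out {x : E} (hx : 1 < ‖x‖) : u x = fam (1 / 6) 0 0 0 (-1) 1 (-1) 1 x := by
  rw [u, χ.zero_of_le_dist (by simpa [χ] using hx.le), fam, add_zero]; ring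

lemma nL_out {f g : E → ℝ} (h : ∀ x, 1 < ‖x‖ → f x = g x) {x : E} (hx : 1 < ‖x‖) :
    nL f x = nL g x := by
  have e : f =ᶠ[𝓝 x] g :=
    Filter.eventually_of_mem ((isOpen_lt continuous_const continuous_norm).mem_nhds hx) h
  rw [nL, nL, (laplacian_congr_nhds e).eq_of_nhds]

lemma u3_out {x : E} (hx : 1 < ‖x‖) : nL (nL (nL u)) x = 0 := by
  have h0 : ∀ y : E, 1 < ‖y‖ → y ≠ 0 := fun y hy h => by rw [h] at hy; norm_num at hy
  have h1 := fun y (hy : 1 < ‖y‖) => (nL_out (fun _ => u_out) hy).trans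
    (lap_fam _ _ _ _ _ _ _ _ (h0 y hy))
  have h2 := fun y (hy : 1 < ‖y‖) => (nL_out h1 hy).trans (lap_fam _ _ _ _ _ _ _ _ (h0 y hy))
  rw [nL_out h2 hx, lap_fam _ _ _ _ _ _ _ _ (h0 x hx), fam]; ring

lemma int_aux : Integrable fun z : ℝ × (Fin 5 → ℝ) =>
    (1 + z.1 ^ 2) * ∏ i, Real.exp (-(1 + z.1 ^ 2) * z.2 i ^ 2) := by
  rw [Measure.volume_eq_prod, integrable_prod_iff (by fun_prop)]
  refine ⟨ae_of_all _ fun a => ?_, ?_⟩
  · rw [volume_pi]
    exact (Integrable.fintype_prod (f := fun (_ : Fin 5) (y : ℝ) => Real.exp (-(1 + a ^ 2) * y ^ 2))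
      fun _ => integrable_exp_neg_mul_sq (by positivity)).const_mul (1 + a ^ 2)
  · have h : ∀ a : ℝ, ∫ y : Fin 5 → ℝ, ‖(1 + a ^ 2) * ∏ i, Real.exp (-(1 + a ^ 2) * y i ^ 2)‖ =
        (1 + a ^ 2) * Real.sqrt (Real.pi / (1 + a ^ 2)) ^ 5 := by
      intro a
      have : ∀ y : Fin 5 → ℝ, ‖(1 + a ^ 2) * ∏ i, Real.exp (-(1 + a ^ 2) * y i ^ 2)‖ =
          (1 + a ^ 2) * ∏ i, Real.exp (-(1 + a ^ 2) * y i ^ 2) := fun y =>
        Real.norm_of_nonneg (by positivity)
      simp only [this]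
      rw [integral_const_mul, integral_fintype_prod_volume_eq_pow
        (fun y : ℝ => Real.exp (-(1 + a ^ 2) * y ^ 2)), integral_gaussian]
      simp
    simp only [h]
    refine (integrable_inv_one_add_sq.const_mul (Real.pi ^ 2 * Real.sqrt Real.pi)).mono'
      (by fun_prop) (ae_of_all _ fun a => ?_)
    have hb : 1 ≤ 1 + a ^ 2 := by nlinarith
    generalize 1 + a ^ 2 = b at hb
    have h1 : Real.sqrt (Real.pi / b) ^ 2 = Real.pi / b := Real.sq_sqrt (by positivity)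
    have h2 : Real.sqrt (Real.pi / b) ≤ Real.sqrt Real.pi :=
      Real.sqrt_le_sqrt (div_le_self Real.pi_pos.le hb)
    rw [Real.norm_of_nonneg (by positivity)]
    calc b * Real.sqrt (Real.pi / b) ^ 5
        = b * (Real.sqrt (Real.pi / b) ^ 2) ^ 2 * Real.sqrt (Real.pi / b) := by ring
      _ ≤ b * (Real.pi / b) ^ 2 * Real.sqrt Real.pi := by rw [h1]; gcongr
      _ = _ := by field_simp

lemma u_int : Integrable fun x : E => Real.exp (6 * u x) := by
  have h1 := ((volume_preserving_piFinSuccAbove (fun _ : Fin 6 => ℝ) 0).comp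
    (PiLp.volume_preserving_ofLp (Fin 6))).integrable_comp_of_integrable int_aux
  refine h1.mono' (Real.continuous_exp.comp (continuous_const.mul
    u_smooth.continuous)).aestronglyMeasurable (ae_of_all _ fun x => ?_)
  have hn : ‖x‖ ^ 2 = x 0 ^ 2 + ∑ i : Fin 5, x i.succ ^ 2 := by
    rw [EuclideanSpace.real_norm_sq_eq, Fin.sum_univ_succ]
  show _ ≤ (1 + x 0 ^ 2) * ∏ i : Fin 5, Real.exp (-(1 + x 0 ^ 2) * x i.succ ^ 2)
  rw [← Real.exp_sum, ← Finset.mul_sum, Real.norm_of_nonneg (Real.exp_pos _).le, u, mul_sub,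
    ← mul_assoc, Real.exp_sub, show (6 : ℝ) * (1 / 6) = 1 by norm_num, one_mul,
    Real.exp_log (rho_pos x), hn, add_sub_cancel_left, div_le_iff₀ (Real.exp_pos _), mul_assoc,
    ← Real.exp_add]
  have hs : 0 ≤ ∑ i : Fin 5, x i.succ ^ 2 := by positivity
  generalize ∑ i : Fin 5, x i.succ ^ 2 = s at hs
  have h2 := χ.le_one (x := x)
  have h3 := Real.add_one_le_exp (-(1 + x 0 ^ 2) * s + 6 * ((1 + x 0 ^ 2) * s))
  have h4 := mul_le_mul_of_nonneg_left h3 (show 0 ≤ 1 + x 0 ^ 2 by positivity)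
  nlinarith [mul_nonneg hs (sq_nonneg (x 0)), mul_nonneg (mul_nonneg hs (sq_nonneg (x 0)))
    (sq_nonneg (x 0))]

theorem result : ∃ u V : E → ℝ, ContDiff ℝ ∞ u ∧ Continuous V ∧ (∃ C, ∀ x, |V x| ≤ C) ∧
    Integrable (fun x => Real.exp (6 * u x)) ∧
    (∀ x, nL (nL (nL u)) x = V x * Real.exp (6 * u x)) ∧
    (∀ ψ : E → ℝ, ContDiff ℝ ∞ ψ → HasCompactSupport ψ →
      ∫ x, u x * nL (nL (nL ψ)) x = ∫ x, V x * Real.exp (6 * u x) * ψ x) ∧
    ∀ M : ℝ, ¬ ∀ᵐ x, u x ≤ M := by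
  have s1 := nL_smooth u_smooth
  have s2 := nL_smooth s1
  have s3 := nL_smooth s2
  have hV : Continuous fun x => nL (nL (nL u)) x / Real.exp (6 * u x) :=
    s3.continuous.div (Real.continuous_exp.comp (continuous_const.mul u_smooth.continuous))
      fun x => (Real.exp_pos _).ne'
  have he : ∀ x, nL (nL (nL u)) x =
      nL (nL (nL u)) x / Real.exp (6 * u x) * Real.exp (6 * u x) :=
    fun x => (div_mul_cancel₀ _ (Real.exp_pos _).ne').symm
  refine ⟨u, _, u_smooth, hV, ?_, u_int, he, fun ψ h1 h2 => ?_, fun M hM => ?_⟩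
  · exact hV.bounded_above_of_compact_support (HasCompactSupport.intro
      (isCompact_closedBall (0 : E) 1) fun x hx => by rw [u3_out (by simpa using hx), zero_div])
  · have t1 := nL_smooth h1
    have c1 := nL_cs h1 h2
    simp only [← he]
    rw [green u_smooth (nL_smooth t1) (nL_cs t1 c1), green s1 t1 c1, green s2 h1 h2]
  · have h1 : ∀ x, u x ≤ M := fun x =>
      (isClosed_le u_smooth.continuous continuous_const).closure_subset
        (Measure.dense_of_ae hM x)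
    have h2 := h1 (EuclideanSpace.single 0 (Real.exp (3 * |M| + 1)))
    have h3 : ‖(EuclideanSpace.single 0 (Real.exp (3 * |M| + 1)) : E)‖ = Real.exp (3 * |M| + 1) := by
      simp
    rw [u_out (by rw [h3]; exact Real.one_lt_exp_iff.2 (by positivity)), fam, h3, Real.log_pow,
      Real.log_exp] at h2
    simp only [PiLp.single_apply, if_true] at h2
    have := le_abs_self M
    push_cast at h2
    nlinarith

end Pool.Agent.Results.MP_885c89_an.Unbounded
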